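import Pool.Agent.H94.LP2.M29

/-!
# Module VNumI: the dimension is smaller than the multiplicities
-/

namespace Pool.Agent.H21.NX

open Finset Pool.Agent.H18.Ex

theorem region_one (s M t c : ℕ) (hs : 2 ≤ s) (hM : 1 ≤ M) (ht : M ≤ t * s) (ht1 : 1 ≤ t)
    (htM : t ≤ M) (hts : t * s ≤ 2 * M) (hc : M ^ 4 ≤ c ^ s) (hcM : c ≤ M ^ 2) (hc1 : 1 ≤ c) :
    ∀ d, 2 ^ 30 * c ^ 3 * t ^ 4 * s ≤ d → ∀ (k : ℕ) (m : Fin k → ℕ), (∀ i, m i ≤ M) →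
    Pool.Agent.H18.Fat.ForGeneralPoints (s + 1) k fun p =>
      Pool.Agent.H18.Fat.ImposesMaximalConditions (s + 1) d p m := by
  have hs1 : 1 ≤ s := by omega
  -- basic bounds
  have hE : ell s M ≤ (8 * t) ^ s := le_trans (ell_mono s ht) (ell_mul_le_pow s t ht1)
  have hE3 : ell s M ^ 3 ≤ (2 ^ 9 * t ^ 3) ^ s := by
    calc ell s M ^ 3 ≤ ((8 * t) ^ s) ^ 3 := Nat.pow_le_pow_left hE 3
      _ = (2 ^ 9 * t ^ 3) ^ s := by
          rw [← pow_mul, mul_comm s 3, pow_mul]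
          congr 1
          ring
  have hc2 : c ^ 2 ≤ c ^ s := Nat.pow_le_pow_right hc1 hs
  have hc3 : c ^ 3 * M ^ 6 ≤ (c ^ 3) ^ s := by
    calc c ^ 3 * M ^ 6 = c ^ 2 * (c * M ^ 6) := by ring
      _ ≤ c ^ 2 * (M ^ 2 * M ^ 6) := Nat.mul_le_mul_left _ (Nat.mul_le_mul_right _ hcM)
      _ = c ^ 2 * (M ^ 4 * M ^ 4) := by ring
      _ ≤ c ^ s * (c ^ s * c ^ s) := Nat.mul_le_mul hc2 (Nat.mul_le_mul hc hc)
      _ = (c ^ 3) ^ s := by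
          rw [← pow_mul, mul_comm 3 s, pow_mul]
          ring
  have h4s : 16 ≤ 4 ^ s := le_trans (by norm_num) (Nat.pow_le_pow_right (by norm_num) hs : 4 ^ 2 ≤ _)
  have ht4s : t ^ 4 * s ≤ 2 * M ^ 4 := by
    calc t ^ 4 * s = t ^ 3 * (t * s) := by ring
      _ ≤ M ^ 3 * (2 * M) := Nat.mul_le_mul (Nat.pow_le_pow_left htM 3) hts
      _ = _ := by ring
  have ht3s : t ^ 3 * s ≤ 2 * M ^ 3 := by
    calc t ^ 3 * s = t ^ 2 * (t * s) := by ring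
      _ ≤ M ^ 2 * (2 * M) := Nat.mul_le_mul (Nat.pow_le_pow_left htM 2) hts
      _ = _ := by ring
  -- the numbers
  obtain ⟨u, hu⟩ : ∃ u, c ^ 3 * t ^ 4 * s = u := ⟨_, rfl⟩
  have hu1 : t * s ≤ u := by
    rw [← hu]
    calc t * s = 1 * t ^ 1 * s := by ring
      _ ≤ c ^ 3 * t ^ 4 * s := Nat.mul_le_mul_right _ (Nat.mul_le_mul
          (Nat.one_le_pow _ _ hc1) (Nat.pow_le_pow_right ht1 (by omega)))
  have hu2 : c * t ^ 3 * s ≤ u := by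
    rw [← hu]
    calc c * t ^ 3 * s = c ^ 1 * t ^ 3 * s := by ring
      _ ≤ c ^ 3 * t ^ 4 * s := Nat.mul_le_mul_right _ (Nat.mul_le_mul
          (Nat.pow_le_pow_right hc1 (by omega)) (Nat.pow_le_pow_right ht1 (by omega)))
  have hu3 : t * s ≤ c * t ^ 3 * s := by
    calc t * s = 1 * t ^ 1 * s := by ring
      _ ≤ c * t ^ 3 * s := Nat.mul_le_mul_right _ (Nat.mul_le_mul hc1
          (Nat.pow_le_pow_right ht1 (by omega)))
  have hu4 : c ^ 3 * t ^ 3 * s ≤ u := by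
    rw [← hu]
    exact Nat.mul_le_mul_right _ (Nat.mul_le_mul_left _ (Nat.pow_le_pow_right ht1 (by omega)))
  have hDe : 2 ^ 11 * c * t ^ 3 * s = 2 ^ 11 * (c * t ^ 3 * s) := by ring
  have hde : 2 ^ 30 * c ^ 3 * t ^ 4 * s = 2 ^ 30 * u := by rw [← hu]; ring
  rw [hde]
  refine crit (s := s) (M := M) (D0 := 2 ^ 11 * c * t ^ 3 * s) (d0 := 2 ^ 30 * u) hs1 hM ?_ ?_
    ?_ ?_ ?_
  · rw [hDe]
    omega
  · rw [hDe]
    omega
  · calc 16 * M ^ 4 * ell s M ^ 3 ≤ 4 ^ s * c ^ s * (2 ^ 9 * t ^ 3) ^ s :=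
          Nat.mul_le_mul (Nat.mul_le_mul h4s hc) hE3
      _ = (2 ^ 11 * c * t ^ 3) ^ s := by
          rw [← mul_pow, ← mul_pow]
          congr 1
          ring
      _ ≤ _ := pow_le_ell_mul s _ hs1
  · have e1 : 16 * M ^ 2 * (2 ^ 30 * u) ≤ (2 ^ 18 * c ^ 3) ^ s := by
      calc 16 * M ^ 2 * (2 ^ 30 * u) = 2 ^ 34 * M ^ 2 * c ^ 3 * (t ^ 4 * s) := by
            rw [← hu]
            ring
        _ ≤ 2 ^ 34 * M ^ 2 * c ^ 3 * (2 * M ^ 4) := Nat.mul_le_mul_left _ ht4s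
        _ = 2 ^ 35 * (c ^ 3 * M ^ 6) := by ring
        _ ≤ (2 ^ 18) ^ 2 * (c ^ 3) ^ s := Nat.mul_le_mul (by norm_num) hc3
        _ ≤ (2 ^ 18) ^ s * (c ^ 3) ^ s :=
            Nat.mul_le_mul_right _ (Nat.pow_le_pow_right (by norm_num) hs)
        _ = _ := by rw [← mul_pow]
    calc 16 * M ^ 2 * (2 ^ 30 * u) * ell s M ^ 3 ≤
        (2 ^ 18 * c ^ 3) ^ s * (2 ^ 9 * t ^ 3) ^ s := Nat.mul_le_mul e1 hE3
      _ = (2 ^ 27 * c ^ 3 * t ^ 3) ^ s := by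
          rw [← mul_pow]
          congr 1
          ring
      _ ≤ ell s (2 ^ 27 * c ^ 3 * t ^ 3 * s) := pow_le_ell_mul s _ hs1
      _ ≤ _ := by
          refine ell_mono s ?_
          have : 2 ^ 27 * c ^ 3 * t ^ 3 * s = 2 ^ 27 * (c ^ 3 * t ^ 3 * s) := by ring
          rw [this]
          omega
  · have e1 : 8 * M ^ 2 * (2 ^ 11 * c * t ^ 3 * s) ≤ (2 ^ 8 * c ^ 2) ^ s := by
      calc 8 * M ^ 2 * (2 ^ 11 * c * t ^ 3 * s) = 2 ^ 14 * M ^ 2 * c * (t ^ 3 * s) := by ring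
        _ ≤ 2 ^ 14 * M ^ 2 * M ^ 2 * (2 * M ^ 3) :=
            Nat.mul_le_mul (Nat.mul_le_mul_left _ hcM) ht3s
        _ = 2 ^ 15 * M ^ 7 := by ring
        _ ≤ 2 ^ 16 * M ^ 8 := Nat.mul_le_mul (by norm_num) (Nat.pow_le_pow_right hM (by omega))
        _ = (2 ^ 8) ^ 2 * (M ^ 4 * M ^ 4) := by ring
        _ ≤ (2 ^ 8) ^ s * (c ^ s * c ^ s) :=
            Nat.mul_le_mul (Nat.pow_le_pow_right (by norm_num) hs) (Nat.mul_le_mul hc hc)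
        _ = _ := by
            rw [← mul_pow, ← mul_pow]
            congr 1
            ring
    have e2 : ell s (2 ^ 11 * c * t ^ 3 * s) ≤ (8 * (2 ^ 11 * c * t ^ 3)) ^ s :=
      ell_mul_le_pow s _ (by
        have : 1 ≤ c * t ^ 3 := Nat.mul_pos hc1 (Nat.pow_pos ht1)
        have e : 2 ^ 11 * c * t ^ 3 = 2 ^ 11 * (c * t ^ 3) := by ring
        rw [e]
        omega)
    calc 8 * M ^ 2 * (2 ^ 11 * c * t ^ 3 * s) *
          (ell s M * ell s (2 ^ 11 * c * t ^ 3 * s)) ≤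
        (2 ^ 8 * c ^ 2) ^ s * ((8 * t) ^ s * (8 * (2 ^ 11 * c * t ^ 3)) ^ s) :=
          Nat.mul_le_mul e1 (Nat.mul_le_mul hE e2)
      _ = (2 ^ 25 * c ^ 3 * t ^ 4) ^ s := by
          rw [← mul_pow, ← mul_pow]
          congr 1
          ring
      _ ≤ ell s (2 ^ 25 * c ^ 3 * t ^ 4 * s) := pow_le_ell_mul s _ hs1
      _ ≤ _ := by
          refine ell_mono s ?_
          have : 2 ^ 25 * c ^ 3 * t ^ 4 * s = 2 ^ 25 * u := by rw [← hu]; ring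
          rw [this]
          omega

end Pool.Agent.H21.NX
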